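import Pool.Agent.Lib.P76h.Lap

/-! # P76h.Flux: `∫_{‖x‖<R} lapr = 4πR² p'(R)`, `p r = exp (a/A - a/(A - r²))`
Polar coordinates (`MeasureTheory.integral_fun_norm_addHaar` for `r ↦ indicator (Iio R) (lapr (r²)) r`,
`volume (ball 0 1) = 4π/3`: `EuclideanSpace.volume_ball_fin_three` or similar), then
`r² lapr (r²) = d/dr (r² p'(r))` and the fundamental theorem of calculus on `[0, R]`. -/

open MeasureTheory Filter Topology
open scoped ENNReal NNReal BigOperators ContDiff SchwartzMap Laplacian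

namespace Pool.Agent.P76h

open Pool.Agent.P76s

namespace FluxAux

theorem hasDerivAt_G {a A r : ℝ} (hr : A - r ^ 2 ≠ 0) :
    HasDerivAt (fun r : ℝ => -(2 * a * r ^ 3 / (A - r ^ 2) ^ 2 *
      Real.exp (a / A - a / (A - r ^ 2)))) (r ^ 2 * lapr a A (r ^ 2)) r := by
  have hu : HasDerivAt (fun r : ℝ => A - r ^ 2) (-(2 * r)) r := by
    simpa using (hasDerivAt_pow 2 r).const_sub A
  have h1 := (((hasDerivAt_const r a).div hu hr).const_sub (a / A)).exp
  have h2 := ((hasDerivAt_pow 3 r).const_mul (2 * a)).div (hu.pow 2) (pow_ne_zero 2 hr)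
  have h3 := (h2.mul h1).neg
  refine h3.congr_deriv ?_
  unfold lapr
  simp only [Pi.pow_apply, Pi.div_apply]
  generalize Real.exp (a / A - a / (A - r ^ 2)) = E
  field_simp
  ring

theorem continuousOn_integrand {a A R : ℝ} (hR : 0 < R) (hRA : R ^ 2 < A) :
    ContinuousOn (fun r : ℝ => r ^ 2 * lapr a A (r ^ 2)) (Set.uIcc 0 R) := by
  intro r hr
  rw [Set.uIcc_of_le hR.le] at hr
  have h : A - r ^ 2 ≠ 0 := by nlinarith [hr.1, hr.2]
  have h3 : (A - r ^ 2) ^ 3 ≠ 0 := pow_ne_zero 3 h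
  have h4 : (A - r ^ 2) ^ 4 ≠ 0 := pow_ne_zero 4 h
  have h2 : (A - r ^ 2) ^ 2 ≠ 0 := pow_ne_zero 2 h
  apply ContinuousAt.continuousWithinAt
  unfold lapr
  fun_prop (disch := assumption)

theorem radial {a A R : ℝ} (hR : 0 < R) (hRA : R ^ 2 < A) :
    ∫ r in (0 : ℝ)..R, r ^ 2 * lapr a A (r ^ 2) =
      -(2 * a * R ^ 3 / (A - R ^ 2) ^ 2 * Real.exp (a / A - a / (A - R ^ 2))) := by
  rw [intervalIntegral.integral_eq_sub_of_hasDerivAt (f := fun r : ℝ =>
    -(2 * a * r ^ 3 / (A - r ^ 2) ^ 2 * Real.exp (a / A - a / (A - r ^ 2))))]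
  · simp
  · intro r hr
    rw [Set.uIcc_of_le hR.le] at hr
    exact hasDerivAt_G (by nlinarith [hr.1, hr.2])
  · exact (continuousOn_integrand hR hRA).intervalIntegrable

theorem vol : (volume : Measure E3).real (Metric.ball 0 1) = Real.pi * 4 / 3 := by
  rw [Measure.real, EuclideanSpace.volume_ball_fin_three]
  simp
  positivity

end FluxAux

theorem flux {a A R : ℝ} (ha : 0 < a) (hR : 0 < R) (hRA : R ^ 2 < A) :
    ∫ x in Metric.ball (0 : E3) R, lapr a A (‖x‖ ^ 2) =
      -(8 * Real.pi * R ^ 3 * (a / (A - R ^ 2) ^ 2) * Real.exp (a / A - a / (A - R ^ 2))) := by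
  have h1 : ∫ x in Metric.ball (0 : E3) R, lapr a A (‖x‖ ^ 2) =
      ∫ x : E3, (Set.Iio R).indicator (fun r => lapr a A (r ^ 2)) ‖x‖ := by
    rw [← integral_indicator Metric.isOpen_ball.measurableSet]
    refine integral_congr_ae (Eventually.of_forall fun x => ?_)
    show (Metric.ball (0 : E3) R).indicator (fun x => lapr a A (‖x‖ ^ 2)) x =
      (Set.Iio R).indicator (fun r => lapr a A (r ^ 2)) ‖x‖
    simp [Set.indicator]
  rw [h1, integral_fun_norm_addHaar volume, FluxAux.vol]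
  have h2 : ∫ y in Set.Ioi (0 : ℝ), y ^ (Module.finrank ℝ E3 - 1) •
      (Set.Iio R).indicator (fun r => lapr a A (r ^ 2)) y =
      ∫ r in (0 : ℝ)..R, r ^ 2 * lapr a A (r ^ 2) := by
    rw [intervalIntegral.integral_of_le hR.le, integral_Ioc_eq_integral_Ioo,
      ← integral_indicator measurableSet_Ioi, ← integral_indicator measurableSet_Ioo]
    refine integral_congr_ae (Eventually.of_forall fun y => ?_)
    simp only [Set.indicator, Set.mem_Ioi, Set.mem_Iio, Set.mem_Ioo, finrank_euclideanSpace,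
      Fintype.card_fin, smul_eq_mul]
    by_cases h0 : 0 < y <;> by_cases h3 : y < R <;> simp [h0, h3]
  rw [h2, FluxAux.radial hR hRA]
  simp only [finrank_euclideanSpace, Fintype.card_fin, smul_eq_mul, nsmul_eq_mul]
  push_cast
  ring

end Pool.Agent.P76h
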