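import Pool.Agent.Lib.P76g.Unif

/-! # P76h.Ball: `1 - u` is small on the set where `v > 0` if the energy is bounded
Choose `s > 0` with `|{x ∈ Ω : v x < s}| ≤ η` (the sets decrease to the empty set as `s → 0`);
`∫_Ω (1-u) ≤ |{x ∈ Ω : v x < s}| + (1/s) ∫ (1-u) v` and `∫ (1-u) g v = 2e/ρ`. -/

open MeasureTheory Filter Topology
open scoped ENNReal NNReal BigOperators ContDiff

namespace Pool.Agent.P76h

open Pool.Agent.P76s Pool.Agent.P76s.SimpleLowerAux

variable {v : E3 → ℝ}

namespace BallAux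

/-- the part of the set where `v` is below the level -/
def low (v : E3 → ℝ) (Ω : Set E3) (s : ℝ) : Set E3 := Ω ∩ {x | v x < s}

theorem measurableSet_low (hvm : Measurable v) {Ω : Set E3} (hΩ : MeasurableSet Ω) (s : ℝ) :
    MeasurableSet (low v Ω s) :=
  hΩ.inter (measurableSet_lt hvm measurable_const)

theorem low_finite (v : E3 → ℝ) {Ω : Set E3} (hΩf : volume Ω ≠ ⊤) (s : ℝ) :
    volume (low v Ω s) ≠ ⊤ :=
  ((measure_mono Set.inter_subset_left).trans_lt hΩf.lt_top).ne

theorem exists_small (hvm : Measurable v) {Ω : Set E3} (hΩ : MeasurableSet Ω)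
    (hΩf : volume Ω ≠ ⊤) (hpos : ∀ x ∈ Ω, 0 < v x) {η : ℝ}
    (hη : 0 < η) : ∃ s > 0, (volume (low v Ω s)).toReal ≤ η := by
  have h1 : Tendsto (fun k : ℕ => volume (low v Ω (1 / ((k : ℝ) + 1)))) atTop
      (𝓝 (volume (⋂ k : ℕ, low v Ω (1 / ((k : ℝ) + 1))))) := by
    refine tendsto_measure_iInter_atTop
      (fun k => (measurableSet_low hvm hΩ _).nullMeasurableSet) ?_ ⟨0, low_finite v hΩf _⟩
    intro k l hkl x hx
    have h3 : (k : ℝ) ≤ l := by exact_mod_cast hkl
    have h4 : v x < 1 / ((l : ℝ) + 1) := hx.2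
    have h5 : 1 / ((l : ℝ) + 1) ≤ 1 / ((k : ℝ) + 1) :=
      one_div_le_one_div_of_le (by positivity) (by linarith)
    exact ⟨hx.1, h4.trans_le h5⟩
  have h2 : (⋂ k : ℕ, low v Ω (1 / ((k : ℝ) + 1))) = ∅ := by
    rw [Set.eq_empty_iff_forall_notMem]
    intro x hx
    rw [Set.mem_iInter] at hx
    have h3 : 0 < v x := hpos x (hx 0).1
    obtain ⟨k, hk⟩ := exists_nat_one_div_lt h3
    exact lt_asymm hk (hx k).2
  rw [h2, measure_empty] at h1
  obtain ⟨k, hk⟩ := (h1.eventually (gt_mem_nhds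
    (show (0 : ℝ≥0∞) < ENNReal.ofReal η by simpa using hη))).exists
  refine ⟨1 / ((k : ℝ) + 1), by positivity, ?_⟩
  exact ENNReal.toReal_le_of_le_ofReal hη.le hk.le

end BallAux

theorem exists_level_set (hvm : Measurable v) {Ω : Set E3} (hΩ : MeasurableSet Ω)
    (hΩf : volume Ω ≠ ⊤) (hpos : ∀ x ∈ Ω, 0 < v x) {η : ℝ} (hη : 0 < η) :
    ∃ s > 0, ∀ w : E3 → ℝ, AEStronglyMeasurable w volume → (Integrable fun x => w x * v x) →
      (∀ᵐ x, 0 ≤ w x ∧ w x ≤ 1) → (∀ x, 0 ≤ v x) →
      ∫ x in Ω, w x ≤ η + 1 / s * ∫ x, w x * v x := by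
  obtain ⟨s, hs, hsη⟩ := BallAux.exists_small hvm hΩ hΩf hpos hη
  refine ⟨s, hs, fun w _ hwi hw hv0 => ?_⟩
  have hA := BallAux.measurableSet_low hvm hΩ s
  have hAi : Integrable ((BallAux.low v Ω s).indicator fun _ => (1 : ℝ)) :=
    (integrable_indicator_iff hA).2 (integrableOn_const (BallAux.low_finite v hΩf s))
  have h1 : ∫ x, ((BallAux.low v Ω s).indicator (fun _ => (1 : ℝ)) x + 1 / s * (w x * v x)) =
      (volume (BallAux.low v Ω s)).toReal + 1 / s * ∫ x, w x * v x := by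
    rw [integral_add hAi (hwi.const_mul _), integral_const_mul, integral_indicator hA]
    simp [Measure.real]
  have h2 : ∫ x in Ω, w x ≤
      ∫ x, ((BallAux.low v Ω s).indicator (fun _ => (1 : ℝ)) x + 1 / s * (w x * v x)) := by
    rw [← integral_indicator hΩ]
    refine integral_mono_of_nonneg ?_ (hAi.add (hwi.const_mul _)) ?_
    · filter_upwards [hw] with x hx
      by_cases hB : x ∈ Ω
      · show 0 ≤ Ω.indicator w x
        rw [Set.indicator_of_mem hB]
        exact hx.1
      · show 0 ≤ Ω.indicator w x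
        rw [Set.indicator_of_notMem hB]
    · filter_upwards [hw] with x hx
      have h3 : 0 ≤ 1 / s * (w x * v x) := mul_nonneg (by positivity) (mul_nonneg hx.1 (hv0 x))
      by_cases hB : x ∈ Ω
      · rw [Set.indicator_of_mem hB]
        by_cases hl : v x < s
        · have hm : x ∈ BallAux.low v Ω s := ⟨hB, hl⟩
          show w x ≤ (BallAux.low v Ω s).indicator (fun _ => (1 : ℝ)) x + 1 / s * (w x * v x)
          rw [Set.indicator_of_mem hm]
          linarith [hx.2]
        · have hm : x ∉ BallAux.low v Ω s := fun h => hl h.2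
          show w x ≤ (BallAux.low v Ω s).indicator (fun _ => (1 : ℝ)) x + 1 / s * (w x * v x)
          rw [Set.indicator_of_notMem hm, zero_add]
          have h4 : s ≤ v x := not_lt.1 hl
          have h5 : w x * s ≤ w x * v x := mul_le_mul_of_nonneg_left h4 hx.1
          rw [one_div, inv_mul_eq_div, le_div_iff₀ hs]
          exact h5
      · have hm : x ∉ BallAux.low v Ω s := fun h => hB h.1
        show Ω.indicator w x ≤
          (BallAux.low v Ω s).indicator (fun _ => (1 : ℝ)) x + 1 / s * (w x * v x)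
        rw [Set.indicator_of_notMem hB, Set.indicator_of_notMem hm, zero_add]
        exact h3
  rw [h1] at h2
  linarith

/-- level `s` -/
theorem exists_level (hvm : Measurable v) {R : ℝ} (hpos : ∀ x : E3, ‖x‖ < R → 0 < v x) {η : ℝ}
    (hη : 0 < η) : ∃ s > 0, ∀ w : E3 → ℝ, AEStronglyMeasurable w volume → (Integrable fun x => w x * v x) →
      (∀ᵐ x, 0 ≤ w x ∧ w x ≤ 1) → (∀ x, 0 ≤ v x) →
      ∫ x in Metric.ball (0 : E3) R, w x ≤ η + 1 / s * ∫ x, w x * v x :=
  exists_level_set hvm measurableSet_ball measure_ball_lt_top.ne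
    (fun x hx => hpos x (by simpa using hx)) hη

end Pool.Agent.P76h
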