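import Pool.Agent.Lib.P76s.SimpleLower
import Pool.Agent.Lib.P76s.PosU

/-! # P76h.Ineq: testing the Simple equation with `0 ≤ p ≤ 1`
`∫ u (-Δp + 4 e p) = ∫ (S + 2eρ u∗u) p ≤ ∫ (S + 2eρ u∗u) = 2e/ρ + 2eρ (∫u)² = 4e/ρ = 4e ∫ u`
(`int_u_eq`: `ρ ∫ u = 1`, `energy`: `∫ S = 2e/ρ`, `S = (1-u) v ≥ 0`, `u∗u ≥ 0`, `e > 0` (`e_pos`);
integrability of the convolution: `Integrable.integrable_convolution` / see FourierEqn.lean). -/

open MeasureTheory Filter Topology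
open scoped ENNReal NNReal BigOperators ContDiff SchwartzMap Laplacian

namespace Pool.Agent.P76h

open Pool.Agent.P76s Pool.Agent.P76s.SimpleLowerAux

namespace IneqAux

theorem schwartz_mul {u : E3 → ℝ} (hu : Integrable u) (χ : 𝓢(E3, ℂ)) :
    Integrable fun x => (u x : ℂ) * χ x := by
  have h1 : Integrable fun x => (u x : ℂ) := hu.ofReal
  exact h1.mul_bdd (c := (SchwartzMap.seminorm ℝ 0 0) χ) χ.continuous.aestronglyMeasurable
    (ae_of_all _ fun x => SchwartzMap.norm_le_seminorm ℝ χ x)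

open Convolution in
theorem conv_int {u : E3 → ℝ} (hu : Integrable u) :
    (Integrable fun x => ∫ y, u y * u (x - y)) ∧
      ∫ x, ∫ y, u y * u (x - y) = (∫ x, u x) * ∫ x, u x := by
  have h1 : (fun x => ∫ y, u y * u (x - y)) =
      u ⋆[ContinuousLinearMap.mul ℝ ℝ, volume] u := by
    funext x
    rfl
  refine ⟨?_, ?_⟩
  · rw [h1]
    exact hu.integrable_convolution _ hu
  · have h2 := integral_convolution (L := ContinuousLinearMap.mul ℝ ℝ) (μ := (volume : Measure E3))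
      (ν := (volume : Measure E3)) hu hu
    have h3 : ∫ x, ∫ y, u y * u (x - y) =
      ∫ x, (u ⋆[ContinuousLinearMap.mul ℝ ℝ, volume] u) x := by
      rw [← h1]
    rw [h3, h2]
    rfl

theorem conv_nonneg {u : E3 → ℝ} (hu0 : ∀ᵐ x, 0 ≤ u x) (x : E3) : 0 ≤ ∫ y, u y * u (x - y) := by
  have h1 : ∀ᵐ y : E3, 0 ≤ u (x - y) :=
    (quasiMeasurePreserving_sub_left_of_right_invariant (volume : Measure E3) x).ae hu0
  refine integral_nonneg_of_ae ?_
  filter_upwards [hu0, h1] with y h2 h3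
  exact mul_nonneg h2 h3

end IneqAux

open IneqAux in
theorem test_ineq {v u : E3 → ℝ} {ρ e : ℝ} (hv : Integrable v) (hv0 : ∀ x, 0 ≤ v x)
    (hne : 0 < ∫ x, v x) (hρ : 0 < ρ) (h : IsSimpleSolution v ρ u e)
    (hu : ∀ᵐ x, 0 ≤ u x ∧ u x ≤ 1) {ψ : 𝓢(E3, ℂ)} {p : E3 → ℝ}
    (hψ : ∀ x, ψ x = ((p x : ℝ) : ℂ)) (hp0 : ∀ x, 0 ≤ p x) (hp1 : ∀ x, p x ≤ 1) :
    ∫ x, u x * (-((Δ ψ) x).re) ≤ 4 * e * ∫ x, u x * (1 - p x) := by
  have he := e_pos hv hv0 hne hρ h hu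
  have hU := int_u_eq hv hv0 hne hρ h hu
  have hu0 : ∀ᵐ x, 0 ≤ u x := hu.mono fun x hx => hx.1
  obtain ⟨hci, hcv⟩ := conv_int h.int_u
  -- integrability of `u p` and `u (Δ ψ).re`
  have hup : Integrable fun x => u x * p x := by
    have h1 := (schwartz_mul h.int_u ψ).re
    refine h1.congr (ae_of_all _ fun x => ?_)
    show RCLike.re ((u x : ℂ) * ψ x) = u x * p x
    rw [hψ, ← Complex.ofReal_mul]
    exact Complex.ofReal_re _
  have huD : Integrable fun x => u x * (-((Δ ψ) x).re) := by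
    have h1 := (schwartz_mul h.int_u (-(Δ ψ))).re
    refine h1.congr (ae_of_all _ fun x => ?_)
    show ((u x : ℂ) * (-(Δ ψ)) x).re = u x * (-((Δ ψ) x).re)
    rw [Complex.re_ofReal_mul]
    rfl
  have heq := h.eqn ψ
  have hR : ∫ x, (((1 - u x) * v x + 2 * e * ρ * ∫ y, u y * u (x - y) : ℝ) : ℂ) * ψ x =
      ((∫ x, ((1 - u x) * v x + 2 * e * ρ * ∫ y, u y * u (x - y)) * p x : ℝ) : ℂ) := by
    rw [← integral_complex_ofReal]
    refine integral_congr_ae (ae_of_all _ fun x => ?_)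
    simp only
    rw [hψ, ← Complex.ofReal_mul]
  have hLi : Integrable fun x => (u x : ℂ) * (-(Δ ψ) x + 4 * e * ψ x) := by
    have h1 := (schwartz_mul h.int_u (-(Δ ψ))).add
      ((schwartz_mul h.int_u ψ).const_mul (4 * (e : ℂ)))
    refine h1.congr (ae_of_all _ fun x => ?_)
    show (u x : ℂ) * (-(Δ ψ)) x + 4 * (e : ℂ) * ((u x : ℂ) * ψ x) =
      (u x : ℂ) * (-(Δ ψ) x + 4 * e * ψ x)
    have h2 : (-(Δ ψ)) x = -((Δ ψ) x) := rfl
    rw [h2]
    ring
  have hL : (∫ x, (u x : ℂ) * (-(Δ ψ) x + 4 * e * ψ x)).re =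
      ∫ x, (u x * (-((Δ ψ) x).re) + 4 * e * (u x * p x)) := by
    have h1 := integral_re hLi
    have h2 : (∫ x, (u x : ℂ) * (-(Δ ψ) x + 4 * e * ψ x)).re =
        ∫ x, ((u x : ℂ) * (-(Δ ψ) x + 4 * e * ψ x)).re := h1.symm
    rw [h2]
    refine integral_congr_ae (ae_of_all _ fun x => ?_)
    simp only
    rw [hψ, Complex.re_ofReal_mul, Complex.add_re]
    have h3 : (-(Δ ψ) x).re = -((Δ ψ) x).re := rfl
    have h4 : (4 * (e : ℂ) * ((p x : ℝ) : ℂ)).re = 4 * e * p x := by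
      have : (4 * (e : ℂ) * ((p x : ℝ) : ℂ)) = ((4 * e * p x : ℝ) : ℂ) := by push_cast; ring
      rw [this]
      exact Complex.ofReal_re _
    rw [h3, h4]
    ring
  have hmain : ∫ x, (u x * (-((Δ ψ) x).re) + 4 * e * (u x * p x)) =
      ∫ x, ((1 - u x) * v x + 2 * e * ρ * ∫ y, u y * u (x - y)) * p x := by
    rw [← hL, heq, hR, Complex.ofReal_re]
  rw [integral_add huD (hup.const_mul _), integral_const_mul] at hmain
  have hfi : Integrable fun x => (1 - u x) * v x + 2 * e * ρ * ∫ y, u y * u (x - y) :=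
    h.int_S.add (hci.const_mul _)
  have hf0 : ∀ᵐ x, 0 ≤ (1 - u x) * v x + 2 * e * ρ * ∫ y, u y * u (x - y) := by
    filter_upwards [hu] with x hx
    have h1 := conv_nonneg hu0 x
    have h2 := hv0 x
    have h3 : 0 ≤ (1 - u x) * v x := mul_nonneg (by linarith [hx.2]) h2
    positivity
  have hle : ∫ x, ((1 - u x) * v x + 2 * e * ρ * ∫ y, u y * u (x - y)) * p x ≤
      ∫ x, ((1 - u x) * v x + 2 * e * ρ * ∫ y, u y * u (x - y)) := by
    refine integral_mono_of_nonneg ?_ hfi ?_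
    · filter_upwards [hf0] with x hx
      exact mul_nonneg hx (hp0 x)
    · filter_upwards [hf0] with x hx
      exact mul_le_of_le_one_right hx (hp1 x)
  have htot : ∫ x, ((1 - u x) * v x + 2 * e * ρ * ∫ y, u y * u (x - y)) =
      4 * e * ∫ x, u x := by
    rw [integral_add h.int_S (hci.const_mul _), integral_const_mul, hcv]
    have h1 := h.energy
    have h2 : ρ * (∫ x, (1 - u x) * v x) = ρ * (2 * e * ∫ x, u x) := by
      calc ρ * (∫ x, (1 - u x) * v x) = 2 * e := by rw [h1]; ring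
        _ = 2 * e * (ρ * ∫ x, u x) := by rw [hU, mul_one]
        _ = ρ * (2 * e * ∫ x, u x) := by ring
    have h3 := mul_left_cancel₀ hρ.ne' h2
    rw [h3]
    calc 2 * e * (∫ x, u x) + 2 * e * ρ * ((∫ x, u x) * ∫ x, u x)
        = 2 * e * (∫ x, u x) + 2 * e * (∫ x, u x) * (ρ * ∫ x, u x) := by ring
      _ = 4 * e * ∫ x, u x := by rw [hU]; ring
  have hsub : ∫ x, u x * (1 - p x) = (∫ x, u x) - ∫ x, u x * p x := by
    rw [← integral_sub h.int_u hup]
    exact integral_congr_ae (ae_of_all _ fun x => by ring)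
  rw [hsub]
  linarith

/-- `Δψ` is bounded -/
theorem laplacian_bounded (ψ : 𝓢(E3, ℂ)) : ∃ C > 0, ∀ x, |((Δ ψ) x).re| ≤ C := by
  refine ⟨(SchwartzMap.seminorm ℝ 0 0) (Δ ψ) + 1, ?_, fun x => ?_⟩
  · have h1 : 0 ≤ (SchwartzMap.seminorm ℝ 0 0) (Δ ψ) := apply_nonneg _ _
    linarith
  · have h1 := SchwartzMap.norm_le_seminorm ℝ (Δ ψ) x
    have h2 := Complex.abs_re_le_norm ((Δ ψ) x)
    linarith

end Pool.Agent.P76h
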