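import Pool.Agent.Lib.P76h.Flux
import Pool.Agent.Lib.P76h.Ineq
import Pool.Agent.Lib.P76h.Ball

/-! # P76h.Large: at strong coupling the energy `e` is large for `ρ |B| ≥ 1 - ε` -/

open MeasureTheory Filter Topology
open scoped ENNReal NNReal BigOperators ContDiff SchwartzMap Laplacian

namespace Pool.Agent.P76h

open Pool.Agent.P76s Pool.Agent.P76s.SimpleLowerAux

theorem exists_test {R : ℝ} (hR : 0 < R) {E : ℝ} (hE : 0 < E) :
    ∃ (ψ : 𝓢(E3, ℂ)) (p : E3 → ℝ), (∀ x, ψ x = ((p x : ℝ) : ℂ)) ∧ (∀ x, 0 ≤ p x) ∧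
      (∀ x, p x ≤ 1) ∧ Continuous p ∧
      4 * E * ∫ x in Metric.ball (0 : E3) R, (1 - p x) <
        ∫ x in Metric.ball (0 : E3) R, (-((Δ ψ) x).re) := by
  have hc0 : 0 < 2 * Real.pi * R ^ 3 * Real.exp (-1) / E := by positivity
  obtain ⟨a, ⟨ha1, ha2⟩, ha⟩ := (((defect hR).eventually (gt_mem_nhds one_pos)).and
    ((tendsto_nhdsWithin_of_tendsto_nhds tendsto_id : Tendsto (fun a : ℝ => a) (𝓝[>] 0)
      (𝓝 0)).eventually (gt_mem_nhds hc0))).and self_mem_nhdsWithin |>.exists
  have ha0 : 0 < a := ha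
  have hA : 0 < R ^ 2 + a := by positivity
  have hRA : R ^ 2 < R ^ 2 + a := by linarith
  obtain ⟨ψ, hψ⟩ := exists_schwartz ha0 hA
  refine ⟨ψ, kk a (R ^ 2 + a), hψ, fun x => kk_nonneg x, fun x => kk_le_one ha0 hA x,
    (contDiff_kk ha0).continuous, ?_⟩
  have h1 : ∫ x in Metric.ball (0 : E3) R, (-((Δ ψ) x).re) =
      -∫ x in Metric.ball (0 : E3) R, lapr a (R ^ 2 + a) (‖x‖ ^ 2) := by
    rw [← integral_neg]
    refine setIntegral_congr_fun measurableSet_ball fun x hx => ?_
    have hx' : ‖x‖ < R := by simpa using hx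
    have hx2 : ‖x‖ ^ 2 < R ^ 2 + a := by
      have := norm_nonneg x
      nlinarith
    show -((Δ ψ) x).re = -lapr a (R ^ 2 + a) (‖x‖ ^ 2)
    rw [laplacian_test ha0 hA hψ hx2, Complex.ofReal_re]
  rw [h1, flux ha0 hR hRA, neg_neg]
  have h2 : a / (R ^ 2 + a - R ^ 2) ^ 2 = 1 / a := by
    rw [add_sub_cancel_left]; field_simp
  have h3 : Real.exp (-1) ≤ Real.exp (a / (R ^ 2 + a) - a / (R ^ 2 + a - R ^ 2)) := by
    refine Real.exp_le_exp.2 ?_
    rw [add_sub_cancel_left, div_self ha0.ne']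
    have : 0 ≤ a / (R ^ 2 + a) := by positivity
    linarith
  rw [h2]
  have h4 : a * E < 2 * Real.pi * R ^ 3 * Real.exp (-1) := by
    rwa [lt_div_iff₀ hE] at ha2
  have h5 : 4 * E * ∫ x in Metric.ball (0 : E3) R, (1 - kk a (R ^ 2 + a) x) ≤ 4 * E := by
    have := mul_le_mul_of_nonneg_left ha1.le (show 0 ≤ 4 * E by positivity)
    linarith
  refine lt_of_le_of_lt h5 ?_
  calc 4 * E < 8 * Real.pi * R ^ 3 * (1 / a) * Real.exp (-1) := by
        rw [mul_one_div, div_mul_eq_mul_div, lt_div_iff₀ ha0]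
        nlinarith
    _ ≤ _ := by gcongr

theorem lower_F {u F : E3 → ℝ} {B : Set E3} (hB : MeasurableSet B) (hBf : volume B ≠ ⊤)
    (hui : Integrable u) (hu : ∀ᵐ x, 0 ≤ u x ∧ u x ≤ 1) (hF : Continuous F) {C : ℝ}
    (hFC : ∀ x, |F x| ≤ C) :
    (∫ x in B, F x) - C * (∫ x in B, (1 - u x)) - C * ∫ x in Bᶜ, u x ≤ ∫ x, u x * F x := by
  have hC0 : 0 ≤ C := (abs_nonneg _).trans (hFC 0)
  have hbd : ∀ᵐ x, ‖F x‖ ≤ C := ae_of_all _ fun x => by rw [Real.norm_eq_abs]; exact hFC x
  have huF : Integrable fun x => u x * F x := by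
    refine (hui.norm.const_mul C).mono' (hui.aestronglyMeasurable.mul
      hF.aestronglyMeasurable) (ae_of_all _ fun x => ?_)
    rw [norm_mul, mul_comm]
    exact mul_le_mul_of_nonneg_right (by rw [Real.norm_eq_abs]; exact hFC x) (norm_nonneg _)
  have hFB : IntegrableOn F B := by
    refine Measure.integrableOn_of_bounded hBf hF.aestronglyMeasurable ?_ (M := C)
    exact ae_restrict_of_ae hbd
  have h1B : IntegrableOn (fun x => 1 - u x) B :=
    (integrableOn_const hBf).sub hui.integrableOn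
  have hsplit := integral_add_compl hB huF
  have h1 : (∫ x in B, F x) - C * (∫ x in B, (1 - u x)) ≤ ∫ x in B, u x * F x := by
    rw [← integral_const_mul, ← integral_sub hFB (h1B.const_mul C)]
    refine setIntegral_mono_ae_restrict (hFB.sub (h1B.const_mul C)) huF.integrableOn
      (ae_restrict_of_ae ?_)
    filter_upwards [hu] with x hx
    have h3 := (abs_le.1 (hFC x)).2
    show F x - C * (1 - u x) ≤ u x * F x
    nlinarith [hx.1, hx.2]
  have h2 : -(C * ∫ x in Bᶜ, u x) ≤ ∫ x in Bᶜ, u x * F x := by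
    rw [← integral_const_mul, ← integral_neg]
    refine setIntegral_mono_ae_restrict (hui.integrableOn.const_mul C).neg huF.integrableOn
      (ae_restrict_of_ae ?_)
    filter_upwards [hu] with x hx
    have h3 := (abs_le.1 (hFC x)).1
    show -(C * u x) ≤ u x * F x
    nlinarith [hx.1, hx.2]
  linarith

theorem upper_q {u q : E3 → ℝ} {B : Set E3} (hB : MeasurableSet B) (hBf : volume B ≠ ⊤)
    (hui : Integrable u) (hu : ∀ᵐ x, 0 ≤ u x ∧ u x ≤ 1) (hq : Continuous q)
    (hq0 : ∀ x, 0 ≤ q x) (hq1 : ∀ x, q x ≤ 1) :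
    ∫ x, u x * q x ≤ (∫ x in B, q x) + ∫ x in Bᶜ, u x := by
  have hbd : ∀ x, ‖q x‖ ≤ 1 := fun x => by
    rw [Real.norm_eq_abs, abs_of_nonneg (hq0 x)]; exact hq1 x
  have huq : Integrable fun x => u x * q x := by
    refine hui.norm.mono' (hui.aestronglyMeasurable.mul
      hq.aestronglyMeasurable) (ae_of_all _ fun x => ?_)
    rw [norm_mul]
    have := mul_le_mul_of_nonneg_left (hbd x) (norm_nonneg (u x))
    linarith
  have hqB : IntegrableOn q B := by
    refine Measure.integrableOn_of_bounded hBf hq.aestronglyMeasurable ?_ (M := 1)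
    exact ae_restrict_of_ae (ae_of_all _ hbd)
  rw [← integral_add_compl hB huq]
  refine add_le_add ?_ ?_
  · refine setIntegral_mono_ae_restrict huq.integrableOn hqB (ae_restrict_of_ae ?_)
    filter_upwards [hu] with x hx
    show u x * q x ≤ q x
    nlinarith [hx.1, hx.2, hq0 x]
  · refine setIntegral_mono_ae_restrict huq.integrableOn hui.integrableOn (ae_restrict_of_ae ?_)
    filter_upwards [hu] with x hx
    show u x * q x ≤ u x
    nlinarith [hx.1, hx.2, hq0 x, hq1 x]

theorem e_large {v : E3 → ℝ} (hvm : Measurable v) (hv : Integrable v) (hv0 : ∀ x, 0 ≤ v x)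
    {R : ℝ} (hR : 0 < R) (hpos : ∀ x : E3, ‖x‖ < R → 0 < v x) (E : ℝ) :
    ∃ ε > 0, ε < 1 ∧ ∃ g₁ > 0, ∀ g ≥ g₁, ∀ ρ > 0,
      1 - ε ≤ ρ * volume.real (Metric.ball (0 : E3) R) → ∀ (u : E3 → ℝ) (e : ℝ),
      IsSimpleSolution (fun x => g * v x) ρ u e → (∀ᵐ x, u x ≤ 1) → E ≤ e := by
  set B := Metric.ball (0 : E3) R with hBdef
  have hB : MeasurableSet B := measurableSet_ball
  have hBf : volume B ≠ ⊤ := measure_ball_lt_top.ne
  have hBpos : 0 < volume B := Metric.measure_ball_pos _ _ hR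
  set b := volume.real B with hb
  have hb0 : 0 < b := ENNReal.toReal_pos hBpos.ne' hBf
  have hne : 0 < ∫ x, v x := by
    rw [integral_pos_iff_support_of_nonneg hv0 hv]
    refine lt_of_lt_of_le hBpos (measure_mono fun x hx => ?_)
    have : ‖x‖ < R := by simpa [hBdef] using hx
    exact (hpos x this).ne'
  set E' := max E 1 with hE'
  have hE0 : 0 < E' := lt_of_lt_of_le one_pos (le_max_right _ _)
  obtain ⟨ψ, p, hψ, hp0, hp1, hpc, hG⟩ := exists_test hR hE0
  obtain ⟨C, hC, hCb⟩ := laplacian_bounded ψ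
  set G := (∫ x in B, (-((Δ ψ) x).re)) - 4 * E' * ∫ x in B, (1 - p x) with hGd
  have hG0 : 0 < G := by rw [hGd]; linarith
  set K := C + 4 * E' with hK
  have hK0 : 0 < K := by positivity
  set η := G / (8 * K) with hη
  have hη0 : 0 < η := by positivity
  obtain ⟨s, hs, hlev⟩ := exists_level hvm hpos (half_pos hη0)
  refine ⟨min (1 / 2) (G / (8 * K * b)), by positivity,
    lt_of_le_of_lt (min_le_left _ _) (by norm_num), 8 * E' * b / (s * η) + 1, by positivity, ?_⟩
  intro g hg ρ hρ hρB u e hsol hu1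
  set ε := min (1 / 2) (G / (8 * K * b)) with hε
  have hε0 : 0 < ε := by positivity
  have hε1 : ε ≤ 1 / 2 := min_le_left _ _
  have hε2 : ε ≤ G / (8 * K * b) := min_le_right _ _
  have hg' : 8 * E' * b / (s * η) ≤ g := by linarith
  have hg0 : 0 < g := by
    have : 0 ≤ 8 * E' * b / (s * η) := by positivity
    linarith
  have hv0g : ∀ x, 0 ≤ g * v x := fun x => mul_nonneg hg0.le (hv0 x)
  have hneg : 0 < ∫ x, g * v x := by rw [P76g.int_scaled]; positivity
  have hu0 := nonneg_of_le_one hρ (hv.const_mul g) hv0g hsol hu1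
  have hu : ∀ᵐ x, 0 ≤ u x ∧ u x ≤ 1 := by filter_upwards [hu0, hu1] with x h1 h2 using ⟨h1, h2⟩
  by_contra hcon
  push Not at hcon
  have heE : e < E' := lt_of_lt_of_le hcon (le_max_left _ _)
  have he0 : 0 < e := e_pos (hv.const_mul g) hv0g hneg hρ hsol hu
  have h1 := int_u_eq (hv.const_mul g) hv0g hneg hρ hsol hu
  have hui := hsol.int_u
  -- the mass of `1 - u` in the ball
  have huv : Integrable fun x => (1 - u x) * v x := by
    refine (hsol.int_S.const_mul g⁻¹).congr (ae_of_all _ fun x => ?_)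
    show g⁻¹ * ((1 - u x) * (g * v x)) = (1 - u x) * v x
    field_simp
  have h2 : g * ∫ x, (1 - u x) * v x = 2 * e / ρ := by
    have h21 : ∫ x, (1 - u x) * (g * v x) = g * ∫ x, (1 - u x) * v x := by
      rw [← integral_const_mul]
      exact integral_congr_ae (ae_of_all _ fun x => by ring)
    have h22 := hsol.energy
    rw [h21] at h22
    rw [eq_div_iff hρ.ne']
    linarith
  have h3 : ∫ x in B, (1 - u x) ≤ η := by
    have h31 := hlev (fun x => 1 - u x)
      (aestronglyMeasurable_const.sub hui.aestronglyMeasurable) huv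
      (by filter_upwards [hu] with x hx
          exact ⟨by linarith [hx.2], by linarith [hx.1]⟩) hv0
    refine h31.trans ?_
    have hρb : 1 / (2 * b) ≤ ρ := by
      rw [div_le_iff₀ (by positivity)]
      nlinarith
    have h32 : ∫ x, (1 - u x) * v x ≤ 4 * E' * b / g := by
      rw [le_div_iff₀ hg0, mul_comm, h2, div_le_iff₀ hρ]
      have h33 : 4 * E' * b * (1 / (2 * b)) ≤ 4 * E' * b * ρ := by gcongr
      have h34 : 4 * E' * b * (1 / (2 * b)) = 2 * E' := by field_simp; norm_num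
      linarith
    have h35 : 1 / s * ∫ x, (1 - u x) * v x ≤ η / 2 := by
      calc 1 / s * ∫ x, (1 - u x) * v x ≤ 1 / s * (4 * E' * b / g) := by gcongr
        _ ≤ η / 2 := by
          rw [one_div_mul_eq_div, div_div, div_le_div_iff₀ (by positivity) (by norm_num)]
          rw [div_le_iff₀ (by positivity)] at hg'
          nlinarith
    linarith
  -- the mass of `u` outside the ball
  have h4 : ∫ x in Bᶜ, u x ≤ G / (4 * K) + η := by
    have h41 := integral_add_compl hB hui
    have h42 : ∫ x in B, (1 - u x) = b - ∫ x in B, u x := by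
      have hc1 : IntegrableOn (fun _ : E3 => (1 : ℝ)) B := integrableOn_const hBf
      rw [integral_sub hc1 hui.integrableOn, setIntegral_const, smul_eq_mul, mul_one]
    have h43 : ∫ x, u x = 1 / ρ := by
      rw [eq_div_iff hρ.ne', mul_comm]; exact h1
    have h44 : 1 / ρ - b ≤ G / (4 * K) := by
      have h45 : 1 / ρ ≤ b + 2 * b * ε := by
        rw [div_le_iff₀ hρ]
        have h46 : (1 - ε) * (1 + 2 * ε) ≤ ρ * b * (1 + 2 * ε) := by gcongr
        nlinarith
      have h47 : 2 * b * ε ≤ 2 * b * (G / (8 * K * b)) := by gcongr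
      have h48 : 2 * b * (G / (8 * K * b)) = G / (4 * K) := by field_simp; norm_num
      linarith
    linarith
  have h4' : 0 ≤ ∫ x in Bᶜ, u x :=
    integral_nonneg_of_ae (ae_restrict_of_ae (by filter_upwards [hu0] with x hx using hx))
  -- the inequality
  have hFc : Continuous fun x => -((Δ ψ) x).re :=
    (Complex.continuous_re.comp (Δ ψ).continuous).neg
  have h5 := lower_F hB hBf hui hu hFc (C := C) (fun x => by rw [abs_neg]; exact hCb x)
  have h6 : ∫ x, u x * (1 - p x) ≤ (∫ x in B, (1 - p x)) + ∫ x in Bᶜ, u x :=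
    upper_q (q := fun x => 1 - p x) hB hBf hui hu (continuous_const.sub hpc)
      (fun x => sub_nonneg.2 (hp1 x)) (fun x => by have := hp0 x; show 1 - p x ≤ 1; linarith)
  have h7 := test_ineq (hv.const_mul g) hv0g hneg hρ hsol hu hψ hp0 hp1
  have h8 : 0 ≤ ∫ x, u x * (1 - p x) := by
    refine integral_nonneg_of_ae ?_
    filter_upwards [hu0] with x hx
    exact mul_nonneg hx (sub_nonneg.2 (hp1 x))
  have h9 : 4 * e * ∫ x, u x * (1 - p x) ≤ 4 * E' * ∫ x, u x * (1 - p x) := by gcongr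
  have h10 : 4 * E' * ∫ x, u x * (1 - p x) ≤
      4 * E' * ((∫ x in B, (1 - p x)) + ∫ x in Bᶜ, u x) := by gcongr
  have h11 : C * (∫ x in B, (1 - u x)) ≤ C * η := by gcongr
  have h12 : K * ∫ x in Bᶜ, u x ≤ K * (G / (4 * K) + η) := by gcongr
  have h13 : K * (G / (4 * K) + η) = G / 4 + G / 8 := by
    rw [hη]; field_simp
  have h14 : C * η ≤ G / 8 := by
    have : K * η = G / 8 := by rw [hη]; field_simp
    rw [← this]
    gcongr
    rw [hK]; linarith
  rw [hK] at h12
  nlinarith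

end Pool.Agent.P76h
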