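import Pool.Agent.Lib.P76h.Large
import Pool.Agent.Lib.P76b.Main

/-! # P76h.Main: strong coupling, all densities above and slightly below the natural threshold -/

open MeasureTheory Filter Topology
open scoped ENNReal NNReal BigOperators ContDiff

namespace Pool.Agent.P76h

open Pool.Agent.P76s Pool.Agent.P76s.SimpleLowerAux Pool.Agent.P76b

variable {v : E3 → ℝ}

/-- the energy per particle is bounded, independently of the coupling, if `ρ ≤ ρ₂ < R⁻³` -/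
theorem upper_free {R ρ₂ : ℝ} (hR : 0 < R) (hsupp : ∀ x : E3, (∃ b, R ≤ |x b|) → v x = 0)
    {M : ℝ} (hM : ∀ x, v x ≤ M) (hv0 : ∀ x, 0 ≤ v x) (hρ₂ : ρ₂ * R ^ 3 < 1) :
    ∃ E₁ > 0, ∀ g > 0, ∀ ρ > 0, ρ ≤ ρ₂ → ∃ N₀ : ℕ, ∀ N ≥ N₀,
      groundEnergy N ((N / ρ) ^ (1 / 3 : ℝ))
        (periodize ((N / ρ) ^ (1 / 3 : ℝ)) (pot fun x => g * v x)) ≤
        ENNReal.ofReal (E₁ * N) := by
  have hM0 : 0 ≤ M := (hv0 0).trans (hM 0)
  have hcont : Tendsto (fun ℓ : ℝ => ρ₂ * ℓ ^ 3) (𝓝[>] R) (𝓝 (ρ₂ * R ^ 3)) := by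
    have : Continuous fun ℓ : ℝ => ρ₂ * ℓ ^ 3 := by fun_prop
    exact this.continuousWithinAt
  obtain ⟨ℓ₁, hℓρ, hR1⟩ := ((hcont.eventually (gt_mem_nhds hρ₂)).and self_mem_nhdsWithin).exists
  have hℓ₁ : R < ℓ₁ := hR1
  set ℓ₀ := (R + ℓ₁) / 2 with hℓ₀
  have hRℓ : R < ℓ₀ := by rw [hℓ₀]; linarith
  have hℓℓ : ℓ₀ < ℓ₁ := by rw [hℓ₀]; linarith
  have hℓ0 : 0 < ℓ₀ := by linarith
  have hℓ1 : 0 < ℓ₁ := by linarith
  set t₀ := (1 - R / ℓ₀) / 2 with ht₀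
  have hRq : R / ℓ₀ < 1 := by rw [div_lt_one hℓ0]; exact hRℓ
  have hRq0 : 0 < R / ℓ₀ := by positivity
  have ht0 : 0 < t₀ := by rw [ht₀]; linarith
  have ht1 : t₀ < 1 / 2 := by rw [ht₀]; linarith
  have ht2 : (1 - 2 * t₀) * ℓ₀ = R := by rw [ht₀]; field_simp; ring
  obtain ⟨θ, hθ, hθper, hθsup, hA1⟩ := exists_theta ht0 ht1
  set A₁ := ∫ t in Set.Ico (0:ℝ) 1, θ t ^ 2 with hA₁
  set D₁ := ∫ t in Set.Ico (0:ℝ) 1, (deriv θ t) ^ 2 with hD₁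
  have hD1 : 0 ≤ D₁ := integral_nonneg fun t => by positivity
  set K := D₁ / A₁ with hK
  have hK0 : 0 ≤ K := by positivity
  refine ⟨3 / 2 * (K / R ^ 2) + 1, by positivity, ?_⟩
  intro g hg0 ρ hρ0 hρρ
  obtain ⟨N₀, hN₀⟩ := eventually_atTop.1 ((tendsto_side hρ0).eventually_ge_atTop
    (max ℓ₀ (ℓ₀ * ℓ₁ / (ℓ₁ - ℓ₀))))
  refine ⟨max N₀ 1, ?_⟩
  intro N hN
  have hNpos : 0 < N := lt_of_lt_of_le one_pos (le_trans (le_max_right _ _) hN)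
  have hNpos' : (0 : ℝ) < N := by exact_mod_cast hNpos
  have hLbig := hN₀ N (le_trans (le_max_left _ _) hN)
  set L := ((N : ℝ) / ρ) ^ (1 / 3 : ℝ) with hL
  have hL3 : L ^ 3 = N / ρ := side_cube hρ0 N
  have hLℓ : ℓ₀ ≤ L := (le_max_left _ _).trans hLbig
  have hLℓ' : ℓ₀ * ℓ₁ / (ℓ₁ - ℓ₀) ≤ L := (le_max_right _ _).trans hLbig
  have hL0 : 0 < L := by linarith
  set m := ⌊L / ℓ₀⌋₊ with hm
  have hm0 : 0 < m := Nat.floor_pos.2 (by rw [le_div_iff₀ hℓ0]; linarith)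
  have hm0' : (0 : ℝ) < m := by exact_mod_cast hm0
  have hm1 : (m : ℝ) ≤ L / ℓ₀ := Nat.floor_le (by positivity)
  have hm2 : L / ℓ₀ < m + 1 := Nat.lt_floor_add_one _
  have hcell1 : ℓ₀ ≤ L / m := by
    rw [le_div_iff₀ hm0']
    rw [le_div_iff₀ hℓ0] at hm1
    linarith
  have hcell2 : L / m ≤ ℓ₁ := by
    rw [div_le_iff₀ hm0']
    have h1 : ℓ₀ * ℓ₁ ≤ L * (ℓ₁ - ℓ₀) := by
      rwa [div_le_iff₀ (by linarith)] at hLℓ'
    rw [div_lt_iff₀ hℓ0] at hm2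
    have h2 : L * ℓ₁ ≤ (m + 1) * ℓ₀ * ℓ₁ := by gcongr
    have h3 : L * ℓ₀ ≤ ℓ₁ * m * ℓ₀ := by nlinarith
    exact le_of_mul_le_mul_right h3 hℓ0
  set φ : ℝ → ℝ := fun t => θ (m * t / L) with hφ
  have hdata : SiteData m L φ t₀ := by
    refine ⟨hm0, hL0, ?_, ?_, ht1, ?_⟩
    · exact hθ.comp ((contDiff_const.mul contDiff_id).div_const L)
    · intro t
      have h1 : (m : ℝ) * (t + L / m) / L = m * t / L + 1 := by field_simp
      simp only [hφ]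
      rw [h1]
      exact hθper _
    · intro t ht
      have h1 : t / (L / m) = m * t / L := by field_simp
      rw [h1]
      exact hθsup _ ht
  have hA := scale_sq hθ hθper hL0 hm0
  have hD := scale_deriv hθ hθper hL0 hm0
  have hRm : R ≤ (1 - 2 * t₀) * (L / m) := by
    have h1 : 0 ≤ 1 - 2 * t₀ := by linarith
    calc R = (1 - 2 * t₀) * ℓ₀ := ht2.symm
      _ ≤ _ := by gcongr
  obtain ⟨a, ha⟩ := exists_same N hm0
  have hup := cluster_upper (N := N) hdata (A := L * A₁) (D := (m : ℝ) ^ 2 / L * D₁) (R := R)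
    (M := g * M) (by positivity) hA hD hRm (by positivity) (w := pot fun x => g * v x)
    (fun y => ENNReal.ofReal_le_ofReal
      (mul_le_mul_of_nonneg_left (hM (WithLp.toLp 2 y)) hg0.le))
    (fun y hy => by
      unfold pot
      have h1 : v (WithLp.toLp 2 y) = 0 := hsupp _ hy
      simp only [h1, mul_zero, ENNReal.ofReal_zero]) a
  refine hup.trans (ENNReal.ofReal_le_ofReal ?_)
  set ℓ := L / m with hℓ
  have hℓpos : 0 < ℓ := by positivity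
  have hRℓ' : R ≤ ℓ := hRℓ.le.trans hcell1
  have hνeq : ρ * ℓ ^ 3 = (N : ℝ) / m ^ 3 := by
    rw [hℓ, div_pow, hL3]
    field_simp
  have hlt : (N : ℝ) < m ^ 3 := by
    have h1 : ρ * ℓ ^ 3 < 1 := by
      calc ρ * ℓ ^ 3 ≤ ρ₂ * ℓ₁ ^ 3 := by
            have : 0 ≤ ρ₂ := hρ0.le.trans hρρ
            gcongr
        _ < 1 := hℓρ
    rw [hνeq, div_lt_one (by positivity)] at h1
    exact h1
  have hk : N / m ^ 3 = 0 := Nat.div_eq_of_lt (by exact_mod_cast hlt)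
  have hsame : (same a : ℝ) = 0 := by
    rw [ha, hk]
    simp
  have hDA : (m : ℝ) ^ 2 / L * D₁ / (L * A₁) = K / ℓ ^ 2 := by
    rw [hK, hℓ]
    field_simp
  have hKR : K / ℓ ^ 2 ≤ K / R ^ 2 := by gcongr
  rw [hDA, hsame, mul_zero, add_zero, mul_comm]
  refine mul_le_mul_of_nonneg_right ?_ hNpos'.le
  linarith

/-- the constants of the case `V > (9/8) M R³`, `ρ ≥ ρ₂` with `ρ₂ R³ = 8/9` -/
theorem upper_dense (hvm : Measurable v) (hv : Integrable v) (hv0 : ∀ x, 0 ≤ v x) {M R : ℝ}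
    (hR : 0 < R) (hM : ∀ x, v x ≤ M) (hsupp : ∀ x : E3, (∃ b, R ≤ |x b|) → v x = 0)
    (hV : 9 / 8 * (M * R ^ 3) < ∫ x, v x) :
    ∃ g₁ > 0, ∃ c > 0, ∀ g ≥ g₁, ∀ ρ ≥ 8 / (9 * R ^ 3), ∃ N₀ : ℕ, ∀ (u : E3 → ℝ) (e : ℝ),
      IsSimpleSolution (fun x => g * v x) ρ u e → (∀ᵐ x, u x ≤ 1) → ∀ N ≥ N₀,
      groundEnergy N ((N / ρ) ^ (1 / 3 : ℝ))
        (periodize ((N / ρ) ^ (1 / 3 : ℝ)) (pot fun x => g * v x)) ≤
        ENNReal.ofReal ((e - c * g * ρ) * N) := by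
  refine P76b.main hvm hv hv0 hR hM hsupp (by positivity) (Or.inl ⟨hV, ?_⟩)
  rw [div_mul_eq_mul_div, lt_div_iff₀ (by positivity)]
  linarith

/-- bathtub bound: `e ≥ c g ρ` above the threshold `1/|{v > 0}|` -/
theorem e_bath (hvm : Measurable v) (hv : Integrable v) (hv0 : ∀ x, 0 ≤ v x)
    {Ω : Set E3} (hΩ : MeasurableSet Ω) (hΩf : volume Ω ≠ ⊤) (hpos : ∀ x ∈ Ω, 0 < v x) {ρ₀ : ℝ}
    (hρ₀ : 0 < ρ₀) (hb : 1 < ρ₀ * volume.real Ω) :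
    ∃ c > 0, ∀ g > 0, ∀ ρ ≥ ρ₀, ∀ (u : E3 → ℝ) (e : ℝ),
      IsSimpleSolution (fun x => g * v x) ρ u e → (∀ᵐ x, u x ≤ 1) → c * g * ρ ≤ e := by
  set b := volume.real Ω with hbd
  have hb' : 0 < b - 1 / ρ₀ := by
    rw [sub_pos, div_lt_iff₀ hρ₀]; linarith
  have hne : 0 < ∫ x, v x := by
    rw [integral_pos_iff_support_of_nonneg hv0 hv]
    have h1 : 0 < volume Ω := by
      rw [pos_iff_ne_zero]
      intro h0
      have : b = 0 := by rw [hbd, measureReal_def, h0]; rfl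
      rw [this] at hb
      linarith
    exact lt_of_lt_of_le h1 (measure_mono fun x hx => (hpos x hx).ne')
  obtain ⟨s, hs, hlev⟩ := exists_level_set hvm hΩ hΩf hpos (half_pos hb')
  refine ⟨s * (b - 1 / ρ₀) / 4, by positivity, ?_⟩
  intro g hg ρ hρ u e hsol hu1
  have hρ0 : 0 < ρ := lt_of_lt_of_le hρ₀ hρ
  have hv0g : ∀ x, 0 ≤ g * v x := fun x => mul_nonneg hg.le (hv0 x)
  have hneg : 0 < ∫ x, g * v x := by rw [P76g.int_scaled]; positivity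
  have hu0 := nonneg_of_le_one hρ0 (hv.const_mul g) hv0g hsol hu1
  have hu : ∀ᵐ x, 0 ≤ u x ∧ u x ≤ 1 := by filter_upwards [hu0, hu1] with x h1 h2 using ⟨h1, h2⟩
  have h1 := int_u_eq (hv.const_mul g) hv0g hneg hρ0 hsol hu
  have hui := hsol.int_u
  have huv : Integrable fun x => (1 - u x) * v x := by
    refine (hsol.int_S.const_mul g⁻¹).congr (ae_of_all _ fun x => ?_)
    show g⁻¹ * ((1 - u x) * (g * v x)) = (1 - u x) * v x
    field_simp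
  have h2 : e = g * ρ / 2 * ∫ x, (1 - u x) * v x := by
    have h21 : ∫ x, (1 - u x) * (g * v x) = g * ∫ x, (1 - u x) * v x := by
      rw [← integral_const_mul]
      exact integral_congr_ae (ae_of_all _ fun x => by ring)
    have h22 := hsol.energy
    rw [h21] at h22
    rw [h22]; ring
  have h31 := hlev (fun x => 1 - u x)
    (aestronglyMeasurable_const.sub hui.aestronglyMeasurable) huv
    (by filter_upwards [hu] with x hx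
        exact ⟨by linarith [hx.2], by linarith [hx.1]⟩) hv0
  have h42 : ∫ x in Ω, (1 - u x) = b - ∫ x in Ω, u x := by
    have hc1 : IntegrableOn (fun _ : E3 => (1 : ℝ)) Ω := integrableOn_const hΩf
    rw [integral_sub hc1 hui.integrableOn, setIntegral_const, smul_eq_mul, mul_one]
  have h43 : ∫ x in Ω, u x ≤ 1 / ρ₀ := by
    have h44 : ∫ x in Ω, u x ≤ ∫ x, u x := setIntegral_le_integral hui hu0
    have h45 : ∫ x, u x = 1 / ρ := by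
      rw [eq_div_iff hρ0.ne', mul_comm]; exact h1
    have h46 : 1 / ρ ≤ 1 / ρ₀ := by gcongr
    linarith
  have h5 : s * ((b - 1 / ρ₀) / 2) ≤ ∫ x, (1 - u x) * v x := by
    have h51 : (b - 1 / ρ₀) / 2 ≤ 1 / s * ∫ x, (1 - u x) * v x := by linarith
    have h52 := mul_le_mul_of_nonneg_left h51 hs.le
    have h53 : s * (1 / s * ∫ x, (1 - u x) * v x) = ∫ x, (1 - u x) * v x := by field_simp
    linarith
  rw [h2]
  have h6 := mul_le_mul_of_nonneg_left h5 (show 0 ≤ g * ρ / 2 by positivity)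
  refine le_trans (le_of_eq ?_) h6
  ring

/-- Part A -/
theorem main_A (hvm : Measurable v) (hv : Integrable v) (hv0 : ∀ x, 0 ≤ v x) {M R : ℝ}
    (hR : 0 < R) (hM : ∀ x, v x ≤ M) (hsupp : ∀ x : E3, (∃ b, R ≤ |x b|) → v x = 0) {r : ℝ}
    (hr : 0 < r) (hpos : ∀ x : E3, ‖x‖ < r → 0 < v x) {ρ₂ : ℝ} (hρ₂ : ρ₂ * R ^ 3 < 1) :
    ∃ ε > 0, ∃ g₁ > 0, ∃ c > 0, ∀ g ≥ g₁, ∀ ρ > 0,
      1 - ε ≤ ρ * volume.real (Metric.ball (0 : E3) r) →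
      (ρ ≤ ρ₂ ∨ 9 / 8 * (M * R ^ 3) < ∫ x, v x) → ∃ N₀ : ℕ, ∀ (u : E3 → ℝ) (e : ℝ),
      IsSimpleSolution (fun x => g * v x) ρ u e → (∀ᵐ x, u x ≤ 1) → ∀ N ≥ N₀,
      groundEnergy N ((N / ρ) ^ (1 / 3 : ℝ))
        (periodize ((N / ρ) ^ (1 / 3 : ℝ)) (pot fun x => g * v x)) ≤
        ENNReal.ofReal ((e - c) * N) := by
  have hρm : max ρ₂ (8 / (9 * R ^ 3)) * R ^ 3 < 1 := by
    rcases le_total ρ₂ (8 / (9 * R ^ 3)) with h | h
    · rw [max_eq_right h, div_mul_eq_mul_div, div_lt_one (by positivity)]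
      have : 0 < R ^ 3 := by positivity
      linarith
    · rw [max_eq_left h]; exact hρ₂
  obtain ⟨E₁, hE₁, hup⟩ := upper_free hR hsupp hM hv0 hρm
  obtain ⟨ε, hε, -, g₁, hg₁, hlarge⟩ := e_large hvm hv hv0 hr hpos (E₁ + 1)
  have hfree : ∀ g ≥ g₁, ∀ ρ > 0, 1 - ε ≤ ρ * volume.real (Metric.ball (0 : E3) r) →
      ρ ≤ max ρ₂ (8 / (9 * R ^ 3)) → ∃ N₀ : ℕ, ∀ (u : E3 → ℝ) (e : ℝ),
      IsSimpleSolution (fun x => g * v x) ρ u e → (∀ᵐ x, u x ≤ 1) → ∀ N ≥ N₀,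
      groundEnergy N ((N / ρ) ^ (1 / 3 : ℝ))
        (periodize ((N / ρ) ^ (1 / 3 : ℝ)) (pot fun x => g * v x)) ≤
        ENNReal.ofReal ((e - 1) * N) := by
    intro g hg ρ hρ hρb hρρ
    obtain ⟨N₀, hN₀⟩ := hup g (lt_of_lt_of_le hg₁ hg) ρ hρ hρρ
    refine ⟨N₀, fun u e hs hu N hN => (hN₀ N hN).trans (ENNReal.ofReal_le_ofReal
      (mul_le_mul_of_nonneg_right ?_ (Nat.cast_nonneg N)))⟩
    have := hlarge g hg ρ hρ hρb u e hs hu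
    linarith
  by_cases hV : 9 / 8 * (M * R ^ 3) < ∫ x, v x
  · obtain ⟨g₂, hg₂, c, hc, hd⟩ := upper_dense hvm hv hv0 hR hM hsupp hV
    refine ⟨ε, hε, max g₁ g₂, by positivity, min 1 (c * g₂ * (8 / (9 * R ^ 3))), by positivity,
      ?_⟩
    intro g hg ρ hρ hρb _
    have hgg₁ : g₁ ≤ g := (le_max_left _ _).trans hg
    have hgg₂ : g₂ ≤ g := (le_max_right _ _).trans hg
    rcases le_total ρ (8 / (9 * R ^ 3)) with hle | hge
    · obtain ⟨N₀, hN₀⟩ := hfree g hgg₁ ρ hρ hρb (hle.trans (le_max_right _ _))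
      refine ⟨N₀, fun u e hs hu N hN => (hN₀ u e hs hu N hN).trans (ENNReal.ofReal_le_ofReal
        (mul_le_mul_of_nonneg_right ?_ (Nat.cast_nonneg N)))⟩
      have := min_le_left 1 (c * g₂ * (8 / (9 * R ^ 3)))
      linarith
    · obtain ⟨N₀, hN₀⟩ := hd g hgg₂ ρ hge
      refine ⟨N₀, fun u e hs hu N hN => (hN₀ u e hs hu N hN).trans (ENNReal.ofReal_le_ofReal
        (mul_le_mul_of_nonneg_right ?_ (Nat.cast_nonneg N)))⟩
      have h1 := min_le_right 1 (c * g₂ * (8 / (9 * R ^ 3)))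
      have hg0 : 0 < g := lt_of_lt_of_le hg₂ hgg₂
      have h2 : c * g₂ * (8 / (9 * R ^ 3)) ≤ c * g * ρ := by gcongr
      linarith
  · refine ⟨ε, hε, g₁, hg₁, 1, one_pos, ?_⟩
    intro g hg ρ hρ hρb hor
    exact hfree g hg ρ hρ hρb ((hor.resolve_right hV).trans (le_max_left _ _))

/-- Part B -/
theorem main_B (hvm : Measurable v) (hv : Integrable v) (hv0 : ∀ x, 0 ≤ v x) {M R : ℝ}
    (hR : 0 < R) (hM : ∀ x, v x ≤ M) (hsupp : ∀ x : E3, (∃ b, R ≤ |x b|) → v x = 0)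
    {Ω : Set E3} (hΩ : MeasurableSet Ω) (hΩf : volume Ω ≠ ⊤) (hpos : ∀ x ∈ Ω, 0 < v x) {ρ₀ : ℝ}
    (hρ₀ : 0 < ρ₀) (hb : 1 < ρ₀ * volume.real Ω) {ρ₂ : ℝ} (hρ₂ : ρ₂ * R ^ 3 < 1) :
    ∃ g₁ > 0, ∃ c > 0, ∀ g ≥ g₁, ∀ ρ ≥ ρ₀,
      (ρ ≤ ρ₂ ∨ 9 / 8 * (M * R ^ 3) < ∫ x, v x) → ∃ N₀ : ℕ, ∀ (u : E3 → ℝ) (e : ℝ),
      IsSimpleSolution (fun x => g * v x) ρ u e → (∀ᵐ x, u x ≤ 1) → ∀ N ≥ N₀,
      groundEnergy N ((N / ρ) ^ (1 / 3 : ℝ))
        (periodize ((N / ρ) ^ (1 / 3 : ℝ)) (pot fun x => g * v x)) ≤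
        ENNReal.ofReal ((e - c * g * ρ) * N) := by
  have hρm : max ρ₂ (8 / (9 * R ^ 3)) * R ^ 3 < 1 := by
    rcases le_total ρ₂ (8 / (9 * R ^ 3)) with h | h
    · rw [max_eq_right h, div_mul_eq_mul_div, div_lt_one (by positivity)]
      have : 0 < R ^ 3 := by positivity
      linarith
    · rw [max_eq_left h]; exact hρ₂
  obtain ⟨E₁, hE₁, hup⟩ := upper_free hR hsupp hM hv0 hρm
  obtain ⟨c₁, hc₁, hbath⟩ := e_bath hvm hv hv0 hΩ hΩf hpos hρ₀ hb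
  have hfree : ∀ g ≥ 2 * E₁ / (c₁ * ρ₀), ∀ ρ ≥ ρ₀,
      ρ ≤ max ρ₂ (8 / (9 * R ^ 3)) → ∃ N₀ : ℕ, ∀ (u : E3 → ℝ) (e : ℝ),
      IsSimpleSolution (fun x => g * v x) ρ u e → (∀ᵐ x, u x ≤ 1) → ∀ N ≥ N₀,
      groundEnergy N ((N / ρ) ^ (1 / 3 : ℝ))
        (periodize ((N / ρ) ^ (1 / 3 : ℝ)) (pot fun x => g * v x)) ≤
        ENNReal.ofReal ((e - c₁ / 2 * g * ρ) * N) := by
    intro g hg ρ hρ hρρ
    have hg0 : 0 < g := lt_of_lt_of_le (by positivity) hg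
    have hρ0 : 0 < ρ := lt_of_lt_of_le hρ₀ hρ
    obtain ⟨N₀, hN₀⟩ := hup g hg0 ρ hρ0 hρρ
    refine ⟨N₀, fun u e hs hu N hN => (hN₀ N hN).trans (ENNReal.ofReal_le_ofReal
      (mul_le_mul_of_nonneg_right ?_ (Nat.cast_nonneg N)))⟩
    have h1 := hbath g hg0 ρ hρ u e hs hu
    have h2 : 2 * E₁ ≤ c₁ * g * ρ := by
      rw [ge_iff_le, div_le_iff₀ (by positivity)] at hg
      calc 2 * E₁ ≤ g * (c₁ * ρ₀) := hg
        _ ≤ g * (c₁ * ρ) := by gcongr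
        _ = c₁ * g * ρ := by ring
    linarith
  by_cases hV : 9 / 8 * (M * R ^ 3) < ∫ x, v x
  · obtain ⟨g₂, hg₂, c, hc, hd⟩ := upper_dense hvm hv hv0 hR hM hsupp hV
    refine ⟨max (2 * E₁ / (c₁ * ρ₀)) g₂, by positivity, min (c₁ / 2) c, by positivity, ?_⟩
    intro g hg ρ hρ _
    have hgg₁ : 2 * E₁ / (c₁ * ρ₀) ≤ g := (le_max_left _ _).trans hg
    have hgg₂ : g₂ ≤ g := (le_max_right _ _).trans hg
    have hg0 : 0 < g := lt_of_lt_of_le hg₂ hgg₂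
    have hρ0 : 0 < ρ := lt_of_lt_of_le hρ₀ hρ
    rcases le_total ρ (8 / (9 * R ^ 3)) with hle | hge
    · obtain ⟨N₀, hN₀⟩ := hfree g hgg₁ ρ hρ (hle.trans (le_max_right _ _))
      refine ⟨N₀, fun u e hs hu N hN => (hN₀ u e hs hu N hN).trans (ENNReal.ofReal_le_ofReal
        (mul_le_mul_of_nonneg_right ?_ (Nat.cast_nonneg N)))⟩
      have : min (c₁ / 2) c * g * ρ ≤ c₁ / 2 * g * ρ := by
        gcongr
        exact min_le_left _ _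
      linarith
    · obtain ⟨N₀, hN₀⟩ := hd g hgg₂ ρ hge
      refine ⟨N₀, fun u e hs hu N hN => (hN₀ u e hs hu N hN).trans (ENNReal.ofReal_le_ofReal
        (mul_le_mul_of_nonneg_right ?_ (Nat.cast_nonneg N)))⟩
      have : min (c₁ / 2) c * g * ρ ≤ c * g * ρ := by
        gcongr
        exact min_le_right _ _
      linarith
  · refine ⟨2 * E₁ / (c₁ * ρ₀), by positivity, c₁ / 2, by positivity, ?_⟩
    intro g hg ρ hρ hor
    exact hfree g hg ρ hρ ((hor.resolve_right hV).trans (le_max_left _ _))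

end Pool.Agent.P76h
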