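import Pool.Agent.Lib.P76s.Defs

/-! # P76h.Defs: the radial test function -/

open MeasureTheory Filter Topology
open scoped ENNReal NNReal BigOperators ContDiff SchwartzMap Laplacian

namespace Pool.Agent.P76h

open Pool.Agent.P76s

/-- `exp (a/A - a/(A - |x|²))` for `|x|² < A`, and `0` otherwise -/
noncomputable def kk (a A : ℝ) (x : E3) : ℝ :=
  Real.exp (a / A) * expNegInvGlue ((A - ‖x‖ ^ 2) / a)

end Pool.Agent.P76h
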