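import Pool.Agent.Lib.P76h.Test

/-! # P76h.Lap: the Laplacian of the test function inside the ball `‖x‖² < A`
For `ψ x = f (‖x‖²)`: `Δ ψ x = 4 ‖x‖² f''(‖x‖²) + 6 f'(‖x‖²)` with `f s = exp (a/A - a/(A - s))`,
`f' = - a/(A-s)² f`, `f'' = (a²/(A-s)⁴ - 2a/(A-s)³) f`.
In Mathlib: `SchwartzMap` Laplacian = sum of second line derivatives / `InnerProductSpace.Laplacian`,
`laplacian_eq_iteratedFDeriv_stdOrthonormalBasis` and similar; see also
Pool/Agent/Lib/P76de3d (radial Laplacians for the spurious solution) and P76s/FourierEqn.lean. -/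

open MeasureTheory Filter Topology
open scoped ENNReal NNReal BigOperators ContDiff SchwartzMap Laplacian

namespace Pool.Agent.P76h

open Pool.Agent.P76s

/-- the radial profile of the Laplacian -/
noncomputable def lapr (a A s : ℝ) : ℝ :=
  (4 * s * (a ^ 2 / (A - s) ^ 4 - 2 * a / (A - s) ^ 3) - 6 * (a / (A - s) ^ 2)) *
    Real.exp (a / A - a / (A - s))

namespace LapAux

/-- the Laplacian of a radial function -/
lemma laplacian_radial {A : ℝ} {f f' f'' : ℝ → ℝ} (h1 : ∀ s < A, HasDerivAt f (f' s) s)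
    (h2 : ∀ s < A, HasDerivAt f' (f'' s) s) {x : E3} (hx : ‖x‖ ^ 2 < A)
    (hg : ContDiffAt ℝ 2 (fun y : E3 => f (‖y‖ ^ 2)) x) :
    (Δ (fun y : E3 => f (‖y‖ ^ 2))) x = 4 * ‖x‖ ^ 2 * f'' (‖x‖ ^ 2) + 6 * f' (‖x‖ ^ 2) := by
  set g : E3 → ℝ := fun y => f (‖y‖ ^ 2) with hgdef
  have hn : ∀ y : E3, HasFDerivAt (fun y : E3 => ‖y‖ ^ 2) (2 • (innerSL ℝ y)) y := fun y =>
    (hasStrictFDerivAt_norm_sq y).hasFDerivAt
  have hd1 : ∀ y : E3, ‖y‖ ^ 2 < A → HasFDerivAt g (f' (‖y‖ ^ 2) • (2 • (innerSL ℝ y))) y :=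
    fun y hy => (h1 _ hy).comp_hasFDerivAt y (hn y)
  have hU : ∀ᶠ y : E3 in 𝓝 x, ‖y‖ ^ 2 < A := by
    have hc : Continuous fun y : E3 => ‖y‖ ^ 2 := by fun_prop
    exact hc.continuousAt.eventually (gt_mem_nhds hx)
  rw [InnerProductSpace.laplacian_eq_iteratedFDeriv_orthonormalBasis g
    (EuclideanSpace.basisFun (Fin 3) ℝ)]
  have hdd : DifferentiableAt ℝ (fderiv ℝ g) x :=
    (hg.fderiv_right (m := 1) (by norm_cast)).differentiableAt (by norm_num)
  have key : ∀ v : E3, iteratedFDeriv ℝ 2 g x ![v, v] =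
      4 * f'' (‖x‖ ^ 2) * (inner ℝ x v) ^ 2 + 2 * f' (‖x‖ ^ 2) * inner ℝ v v := by
    intro v
    rw [iteratedFDeriv_two_apply]
    simp only [Matrix.cons_val_zero, Matrix.cons_val_one]
    have h3 : fderiv ℝ (fderiv ℝ g) x v v = fderiv ℝ (fun y => fderiv ℝ g y v) x v := by
      rw [fderiv_clm_apply hdd (differentiableAt_const v)]
      simp
    rw [h3]
    have h4 : (fun y => fderiv ℝ g y v) =ᶠ[𝓝 x] fun y => f' (‖y‖ ^ 2) * (2 * inner ℝ y v) := by
      filter_upwards [hU] with y hy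
      rw [(hd1 y hy).fderiv]
      simp
    have h5 : HasFDerivAt (fun y : E3 => 2 * inner ℝ y v) ((2 : ℝ) • innerSL ℝ v) x := by
      have : (fun y : E3 => 2 * inner ℝ y v) = fun y => (2 : ℝ) * innerSL ℝ v y := by
        ext y; simp [real_inner_comm]
      rw [this]
      exact (innerSL ℝ v).hasFDerivAt.const_mul 2
    have h6 : HasFDerivAt (fun y : E3 => f' (‖y‖ ^ 2)) (f'' (‖x‖ ^ 2) • (2 • (innerSL ℝ x))) x :=
      (h2 _ hx).comp_hasFDerivAt x (hn x)
    have h7 : HasFDerivAt (fun y : E3 => f' (‖y‖ ^ 2) * (2 * inner ℝ y v)) _ x := h6.mul h5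
    rw [h4.fderiv_eq, h7.fderiv]
    simp
    ring
  simp only [key]
  rw [Finset.sum_add_distrib, ← Finset.mul_sum, ← Finset.mul_sum]
  have e1 : ∑ i, (inner ℝ x ((EuclideanSpace.basisFun (Fin 3) ℝ) i)) ^ 2 = ‖x‖ ^ 2 := by
    rw [EuclideanSpace.norm_sq_eq]
    apply Finset.sum_congr rfl
    intro i _
    simp [EuclideanSpace.inner_single_right]
  rw [e1]
  simp
  ring

lemma hasDerivAt_inner {a A s : ℝ} (hs : s < A) :
    HasDerivAt (fun s => a / A - a / (A - s)) (-(a / (A - s) ^ 2)) s := by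
  have h0 : A - s ≠ 0 := by linarith [sub_pos.2 hs]
  have h1 : HasDerivAt (fun s : ℝ => A - s) (-1) s := by
    simpa using (hasDerivAt_id s).const_sub A
  have h2 := ((hasDerivAt_const s a).div h1 h0).const_sub (a / A)
  refine h2.congr_deriv ?_
  field_simp
  ring

lemma hasDerivAt_f {a A s : ℝ} (hs : s < A) :
    HasDerivAt (fun s => Real.exp (a / A - a / (A - s)))
      (-(a / (A - s) ^ 2) * Real.exp (a / A - a / (A - s))) s := by
  have h := (hasDerivAt_inner (a := a) hs).exp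
  rwa [mul_comm] at h

lemma hasDerivAt_f' {a A s : ℝ} (hs : s < A) :
    HasDerivAt (fun s => -(a / (A - s) ^ 2) * Real.exp (a / A - a / (A - s)))
      ((a ^ 2 / (A - s) ^ 4 - 2 * a / (A - s) ^ 3) * Real.exp (a / A - a / (A - s))) s := by
  have h0 : A - s ≠ 0 := by linarith [sub_pos.2 hs]
  have h1 : HasDerivAt (fun s : ℝ => A - s) (-1) s := by
    simpa using (hasDerivAt_id s).const_sub A
  have h2 : HasDerivAt (fun s : ℝ => -(a / (A - s) ^ 2)) (-(2 * a / (A - s) ^ 3)) s := by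
    have h3 := ((hasDerivAt_const s a).div (h1.pow 2) (pow_ne_zero 2 h0)).neg
    refine h3.congr_deriv ?_
    simp
    field_simp
  refine (h2.mul (hasDerivAt_f (a := a) hs)).congr_deriv ?_
  field_simp
  ring

end LapAux

open LapAux

theorem laplacian_test {a A : ℝ} (ha : 0 < a) (hA : 0 < A) {ψ : 𝓢(E3, ℂ)}
    (hψ : ∀ x, ψ x = ((kk a A x : ℝ) : ℂ)) {x : E3} (hx : ‖x‖ ^ 2 < A) :
    (Δ ψ) x = ((lapr a A (‖x‖ ^ 2) : ℝ) : ℂ) := by
  set g : E3 → ℝ := fun y => Real.exp (a / A - a / (A - ‖y‖ ^ 2)) with hg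
  have hU : ∀ᶠ y : E3 in 𝓝 x, ‖y‖ ^ 2 < A := by
    have hc : Continuous fun y : E3 => ‖y‖ ^ 2 := by fun_prop
    exact hc.continuousAt.eventually (gt_mem_nhds hx)
  have hx0 : A - ‖x‖ ^ 2 ≠ 0 := by linarith [sub_pos.2 hx]
  have hgc : ContDiffAt ℝ 2 g x := by
    have h1 : ContDiffAt ℝ 2 (fun y : E3 => A - ‖y‖ ^ 2) x :=
      contDiffAt_const.sub (contDiff_norm_sq ℝ).contDiffAt
    exact (contDiffAt_const.sub (contDiffAt_const.div h1 hx0)).exp
  have h1 : (ψ : E3 → ℂ) =ᶠ[𝓝 x] (Complex.ofRealCLM ∘ g) := by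
    filter_upwards [hU] with y hy
    rw [hψ, kk_eq ha hy]
    rfl
  rw [SchwartzMap.laplacian_apply, (InnerProductSpace.laplacian_congr_nhds h1).eq_of_nhds,
    hgc.laplacian_CLM_comp_left]
  have h2 := laplacian_radial (A := A) (f := fun s => Real.exp (a / A - a / (A - s)))
    (f' := fun s => -(a / (A - s) ^ 2) * Real.exp (a / A - a / (A - s)))
    (f'' := fun s => (a ^ 2 / (A - s) ^ 4 - 2 * a / (A - s) ^ 3) *
      Real.exp (a / A - a / (A - s)))
    (fun s hs => hasDerivAt_f hs) (fun s hs => hasDerivAt_f' hs) hx hgc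
  have h3 : (Δ g) x = lapr a A (‖x‖ ^ 2) := by
    rw [hg, h2]
    unfold lapr
    ring
  show Complex.ofRealCLM ((Δ g) x) = _
  rw [h3]
  rfl

end Pool.Agent.P76h
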