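import Pool.Agent.Lib.P76h.Defs

/-! # P76h.Test: the test function is smooth with compact support, between 0 and 1, and its defect on the
ball of radius `R` tends to `0`
(`expNegInvGlue t = exp (-t⁻¹)` for `t > 0`; `defect`: dominated convergence, for `‖x‖ < R`
`a/A - a/(A - ‖x‖²) → 0` with `A = R² + a`) -/

open MeasureTheory Filter Topology
open scoped ENNReal NNReal BigOperators ContDiff SchwartzMap Laplacian

namespace Pool.Agent.P76h

open Pool.Agent.P76s

variable {a A R : ℝ}

theorem kk_nonneg (x : E3) : 0 ≤ kk a A x :=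
  mul_nonneg (Real.exp_pos _).le (expNegInvGlue.nonneg _)

theorem kk_eq (ha : 0 < a) {x : E3} (hx : ‖x‖ ^ 2 < A) :
    kk a A x = Real.exp (a / A - a / (A - ‖x‖ ^ 2)) := by
  unfold kk expNegInvGlue
  have h : ¬ ((A - ‖x‖ ^ 2) / a ≤ 0) := not_le.2 (div_pos (sub_pos.2 hx) ha)
  rw [if_neg h, ← Real.exp_add, inv_div]
  congr 1

namespace TestAux

theorem kk_zero (ha : 0 < a) {x : E3} (hx : A ≤ ‖x‖ ^ 2) : kk a A x = 0 := by
  unfold kk
  rw [expNegInvGlue.zero_of_nonpos (div_nonpos_of_nonpos_of_nonneg (sub_nonpos.2 hx) ha.le),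
    mul_zero]

end TestAux

open TestAux

theorem kk_le_one (ha : 0 < a) (hA : 0 < A) (x : E3) : kk a A x ≤ 1 := by
  rcases lt_or_ge (‖x‖ ^ 2) A with hx | hx
  · rw [kk_eq ha hx, Real.exp_le_one_iff, sub_nonpos]
    have h1 : 0 < A - ‖x‖ ^ 2 := sub_pos.2 hx
    have h2 : A - ‖x‖ ^ 2 ≤ A := by
      have := sq_nonneg ‖x‖
      linarith
    exact div_le_div_of_nonneg_left ha.le h1 h2
  · rw [kk_zero ha hx]
    exact zero_le_one

theorem contDiff_kk (ha : 0 < a) : ContDiff ℝ ∞ (kk a A) := by
  have h1 : ContDiff ℝ ∞ fun x : E3 => (A - ‖x‖ ^ 2) / a :=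
    (contDiff_const.sub (contDiff_norm_sq ℝ)).div_const a
  exact contDiff_const.mul (expNegInvGlue.contDiff.comp h1)

theorem hasCompactSupport_kk (ha : 0 < a) (hA : 0 < A) : HasCompactSupport (kk a A) := by
  refine HasCompactSupport.intro (isCompact_closedBall (0 : E3) (Real.sqrt A)) fun x hx => ?_
  apply kk_zero ha
  rw [Metric.mem_closedBall, dist_zero_right, not_le] at hx
  have h1 := Real.sq_sqrt hA.le
  have h2 := Real.sqrt_nonneg A
  nlinarith

theorem exists_schwartz (ha : 0 < a) (hA : 0 < A) :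
    ∃ ψ : 𝓢(E3, ℂ), ∀ x, ψ x = ((kk a A x : ℝ) : ℂ) := by
  have h1 : HasCompactSupport (Complex.ofRealCLM ∘ kk a A) :=
    (hasCompactSupport_kk ha hA).comp_left rfl
  exact ⟨h1.toSchwartzMap (Complex.ofRealCLM.contDiff.comp (contDiff_kk ha)), fun x => rfl⟩

theorem defect (hR : 0 < R) :
    Tendsto (fun a : ℝ => ∫ x in Metric.ball (0 : E3) R, (1 - kk a (R ^ 2 + a) x)) (𝓝[>] 0)
      (𝓝 0) := by
  have hR2 : 0 < R ^ 2 := by positivity
  have key := tendsto_integral_filter_of_dominated_convergence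
    (μ := (volume : Measure E3).restrict (Metric.ball 0 R)) (l := 𝓝[>] (0:ℝ))
    (F := fun a x => 1 - kk a (R ^ 2 + a) x) (f := fun _ => (0:ℝ)) (fun _ => (1:ℝ)) ?_ ?_ ?_ ?_
  · rw [integral_zero] at key
    exact key
  · filter_upwards [self_mem_nhdsWithin] with a ha
    exact (continuous_const.sub (contDiff_kk ha).continuous).aestronglyMeasurable
  · filter_upwards [self_mem_nhdsWithin] with a ha
    refine Eventually.of_forall fun x => ?_
    have h1 := kk_nonneg (a := a) (A := R ^ 2 + a) x
    have h2 := kk_le_one ha (add_pos hR2 ha) x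
    rw [Real.norm_eq_abs, abs_le]
    constructor <;> linarith
  · exact integrableOn_const (measure_ball_lt_top.ne)
  · filter_upwards [ae_restrict_mem measurableSet_ball] with x hx
    rw [Metric.mem_ball, dist_zero_right] at hx
    have hx2 : ‖x‖ ^ 2 < R ^ 2 := by
      have := norm_nonneg x
      nlinarith
    have hc : ContinuousAt (fun a : ℝ =>
        1 - Real.exp (a / (R ^ 2 + a) - a / (R ^ 2 + a - ‖x‖ ^ 2))) 0 := by
      refine continuousAt_const.sub (ContinuousAt.rexp (ContinuousAt.sub ?_ ?_))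
      · refine continuousAt_id.div (continuousAt_const.add continuousAt_id) ?_
        simp only [add_zero]
        exact hR2.ne'
      · refine continuousAt_id.div ((continuousAt_const.add continuousAt_id).sub
          continuousAt_const) ?_
        simp only [add_zero]
        exact (sub_pos.2 hx2).ne'
    have hlim := hc.tendsto.mono_left (nhdsWithin_le_nhds (s := Set.Ioi (0:ℝ)))
    simp only [zero_div, sub_self, Real.exp_zero] at hlim
    refine hlim.congr' ?_
    filter_upwards [self_mem_nhdsWithin] with a ha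
    have ha' : 0 < a := ha
    rw [kk_eq ha' (by linarith)]

end Pool.Agent.P76h
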